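import Mathlib
import Pool.Agent.H422.HE.Val
import Pool.Agent.H422.UC.Local

/-!
# Polynomials with good reduction at a valuation
-/

set_option autoImplicit false

open Polynomial

namespace Pool.Agent.H422.MF

open Pool.Agent.H422.HE Pool.Agent.H422.UC

section grp

variable {Γ : Type*} [LinearOrderedCommGroupWithZero Γ]

lemma pow_cl_nat {κ σ : Γ} (hκ : κ ≠ 0) {e n : ℕ} (he : 0 < e) (h : κ ^ e = σ ^ n) :
    ∃ g : Γ, κ = g ^ (n / Nat.gcd e n) := by
  rcases Nat.eq_zero_or_pos n with hn | hn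
  · subst hn
    refine ⟨1, ?_⟩
    rw [one_pow]
    rw [pow_zero] at h
    exact (pow_eq_one_iff_of_nonneg zero_le (by omega)).mp h
  have hσ : σ ≠ 0 := by
    rintro rfl
    rw [zero_pow (by omega)] at h
    exact pow_ne_zero _ hκ h
  set g := Nat.gcd e n with hg
  have hg0 : 0 < g := Nat.gcd_pos_of_pos_left _ he
  obtain ⟨e', he'⟩ : g ∣ e := Nat.gcd_dvd_left _ _
  obtain ⟨n', hn'⟩ : g ∣ n := Nat.gcd_dvd_right _ _
  have hcop : Nat.Coprime e' n' := by
    have h1 : g * Nat.gcd e' n' = g := by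
      rw [← Nat.gcd_mul_left, ← he', ← hn']
    exact Nat.eq_of_mul_eq_mul_left hg0 (by rw [h1, Nat.mul_one])
  have h2 : κ ^ e' = σ ^ n' := by
    have h3 : (κ ^ e') ^ g = (σ ^ n') ^ g := by
      rw [← pow_mul, ← pow_mul, Nat.mul_comm e', Nat.mul_comm n', ← he', ← hn', h]
    exact (pow_left_inj₀ zero_le zero_le hg0.ne').mp h3
  have hdiv : n / g = n' := by rw [hn']; exact Nat.mul_div_cancel_left _ hg0
  rw [hdiv]
  have hb := Nat.gcd_eq_gcd_ab e' n'
  rw [hcop] at hb
  set u := Nat.gcdA e' n'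
  set w := Nat.gcdB e' n'
  refine ⟨σ ^ u * κ ^ w, ?_⟩
  rw [mul_pow]
  calc κ = κ ^ (1 : ℤ) := (zpow_one _).symm
    _ = κ ^ ((e' : ℤ) * u + (n' : ℤ) * w) := by rw [← hb]; simp
    _ = (κ ^ e') ^ u * κ ^ ((n' : ℤ) * w) := by
        rw [zpow_add₀ hκ, zpow_mul, zpow_natCast]
    _ = (σ ^ n') ^ u * κ ^ ((n' : ℤ) * w) := by rw [h2]
    _ = (σ ^ u) ^ n' * (κ ^ w) ^ n' := by
        congr 1
        · rw [← zpow_natCast, ← zpow_natCast, ← zpow_mul, ← zpow_mul, mul_comm]
        · rw [← zpow_natCast, ← zpow_mul, mul_comm]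

end grp

section val

variable {K : Type*} [Field K] {Γ : Type*} [LinearOrderedCommGroupWithZero Γ] (v : Valuation K Γ)

lemma v_natCast_le (n : ℕ) : v (n : K) ≤ 1 := by
  induction n with
  | zero => simp
  | succ n ih =>
    rw [Nat.cast_succ]
    exact (v.map_add _ _).trans (max_le ih (by rw [map_one]))

lemma pow_taylor {x y : K} (hx : v x ≤ 1) (hy : v y ≤ 1) (n : ℕ) :
    v (x ^ n - y ^ n - (x - y) * (n * y ^ (n - 1))) ≤ v (x - y) ^ 2 := by
  induction n with
  | zero => simp
  | succ n ih =>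
    rcases Nat.eq_zero_or_pos n with hn | hn
    · subst hn; simp
    have hid : x ^ (n + 1) - y ^ (n + 1) - (x - y) * ((n + 1 : ℕ) * y ^ (n + 1 - 1)) =
        x * (x ^ n - y ^ n - (x - y) * (n * y ^ (n - 1))) + n * y ^ (n - 1) * (x - y) ^ 2 := by
      obtain ⟨k, rfl⟩ : ∃ k, n = k + 1 := ⟨n - 1, by omega⟩
      simp only [Nat.add_sub_cancel]
      push_cast
      ring
    rw [hid]
    refine (v.map_add _ _).trans (max_le ?_ ?_)
    · rw [map_mul]
      calc v x * _ ≤ 1 * v (x - y) ^ 2 := mul_le_mul' hx ih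
        _ = _ := one_mul _
    · rw [map_mul, map_mul, map_pow, map_pow]
      calc v (n : K) * v y ^ (n - 1) * v (x - y) ^ 2 ≤ 1 * v (x - y) ^ 2 :=
            mul_le_mul' (mul_le_one' (v_natCast_le v n) (pow_le_one' hy _)) le_rfl
        _ = _ := one_mul _

lemma eval_taylor {P : K[X]} (hP : IntP v P) {x y : K} (hx : v x ≤ 1) (hy : v y ≤ 1) :
    v (P.eval x - P.eval y - (x - y) * (derivative P).eval y) ≤ v (x - y) ^ 2 := by
  have h1 : (derivative P).eval y = ∑ i ∈ Finset.range (P.natDegree + 1),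
      P.coeff i * (i * y ^ (i - 1)) := by
    rw [derivative_eval, sum_over_range _ (by intro n; simp)]
    refine Finset.sum_congr rfl fun i _ => by ring
  rw [h1, eval_eq_sum_range, eval_eq_sum_range, Finset.mul_sum, ← Finset.sum_sub_distrib,
    ← Finset.sum_sub_distrib]
  apply Valuation.map_sum_le
  intro i _
  have h2 : P.coeff i * x ^ i - P.coeff i * y ^ i - (x - y) * (P.coeff i * (i * y ^ (i - 1))) =
      P.coeff i * (x ^ i - y ^ i - (x - y) * (i * y ^ (i - 1))) := by ring
  rw [h2, map_mul]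
  calc v (P.coeff i) * _ ≤ 1 * v (x - y) ^ 2 := mul_le_mul' (hP i) (pow_taylor v hx hy i)
    _ = _ := one_mul _

lemma int_derivative {P : K[X]} (hP : IntP v P) : IntP v (derivative P) := by
  intro i
  rw [coeff_derivative, map_mul]
  refine mul_le_one' (hP _) ?_
  have := v_natCast_le v (i + 1)
  push_cast at this
  exact this

/-- separable good reduction with unit leading and constant coefficients -/
structure GP (P : K[X]) : Prop where
  int : IntP v P
  c0 : v (P.coeff 0) = 1
  lc : v P.leadingCoeff = 1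
  sep : ∃ U V : K[X], IntP v U ∧ IntP v V ∧ U * P + V * derivative P = 1

variable {v} {P : K[X]}

lemma GP.eval_small (hP : GP v P) {w : K} (hw : v w < 1) : v (P.eval w) = 1 := by
  have h1 : v (P.eval w - P.eval 0) < 1 := by
    refine lt_of_le_of_lt (eval_sub_le v hP.int hw.le (by rw [map_zero]; exact zero_le)) ?_
    rwa [sub_zero]
  have h2 : P.eval w = P.eval 0 + (P.eval w - P.eval 0) := by ring
  have h3 : v (P.eval 0) = 1 := by rw [← coeff_zero_eq_eval_zero]; exact hP.c0
  rw [h2, Valuation.map_add_eq_of_lt_left, h3]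
  rw [h3]; exact h1

lemma GP.eval_sub_big (hP : GP v P) {w : K} (hw : 1 < v w) :
    v (P.eval w - P.leadingCoeff * w ^ P.natDegree) < v w ^ P.natDegree := by
  rw [eval_eq_sum_range, Finset.sum_range_succ]
  rw [show P.leadingCoeff = P.coeff P.natDegree from rfl, add_sub_cancel_right]
  apply Valuation.map_sum_lt
  · exact pow_ne_zero _ (ne_of_gt (lt_trans zero_lt_one hw))
  · intro i hi
    rw [Finset.mem_range] at hi
    rw [map_mul, map_pow]
    calc v (P.coeff i) * v w ^ i ≤ 1 * v w ^ i := mul_le_mul' (hP.int i) le_rfl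
      _ = v w ^ i := one_mul _
      _ < v w ^ P.natDegree := pow_lt_pow_right₀ hw hi

lemma GP.eval_big (hP : GP v P) {w : K} (hw : 1 < v w) :
    v (P.eval w) = v w ^ P.natDegree := by
  have h1 := hP.eval_sub_big hw
  have h2 : P.eval w = P.leadingCoeff * w ^ P.natDegree +
    (P.eval w - P.leadingCoeff * w ^ P.natDegree) := by ring
  have h3 : v (P.leadingCoeff * w ^ P.natDegree) = v w ^ P.natDegree := by
    rw [map_mul, hP.lc, one_mul, map_pow]
  rw [h2, Valuation.map_add_eq_of_lt_left, h3]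
  rw [h3]; exact h1

lemma GP.deriv_unit (hP : GP v P) {w : K} (hw : v w ≤ 1) (h : v (P.eval w) < 1) :
    v ((derivative P).eval w) = 1 := by
  obtain ⟨U, V, hU, hV, hUV⟩ := hP.sep
  have h1 : U.eval w * P.eval w + V.eval w * (derivative P).eval w = 1 := by
    rw [← eval_mul, ← eval_mul, ← eval_add, hUV, eval_one]
  have h2 : v (U.eval w * P.eval w) < 1 := by
    rw [map_mul]
    calc v (U.eval w) * v (P.eval w) ≤ 1 * v (P.eval w) := mul_le_mul' (eval_le_one v hU hw) le_rfl
      _ = v (P.eval w) := one_mul _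
      _ < 1 := h
  have h3 : v (V.eval w * (derivative P).eval w) = 1 := by
    have h4 : V.eval w * (derivative P).eval w = 1 - U.eval w * P.eval w := by
      linear_combination h1
    rw [h4, Valuation.map_sub_eq_of_lt_left, map_one]
    rw [map_one]; exact h2
  rw [map_mul] at h3
  have h5 : v ((derivative P).eval w) ≤ 1 := eval_le_one v (int_derivative v hP.int) hw
  refine le_antisymm h5 ?_
  calc (1 : Γ) = v (V.eval w) * v ((derivative P).eval w) := h3.symm
    _ ≤ 1 * v ((derivative P).eval w) := mul_le_mul' (eval_le_one v hV hw) le_rfl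
    _ = _ := one_mul _

lemma GP.diff_eq (hP : GP v P) {x y : K} (hx : v x ≤ 1) (hy : v y ≤ 1) (hxy : v (x - y) < 1)
    (h : v (P.eval y) < 1) : v (P.eval x - P.eval y) = v (x - y) := by
  have h1 := eval_taylor v hP.int hx hy
  have h2 := hP.deriv_unit hy h
  rcases eq_or_ne (x - y) 0 with h0 | h0
  · rw [sub_eq_zero] at h0
    rw [h0, sub_self, sub_self]
  have h3 : v ((x - y) * (derivative P).eval y) = v (x - y) := by rw [map_mul, h2, mul_one]
  have h4 : P.eval x - P.eval y = (x - y) * (derivative P).eval y +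
    (P.eval x - P.eval y - (x - y) * (derivative P).eval y) := by ring
  rw [h4, Valuation.map_add_eq_of_lt_left, h3]
  rw [h3]
  refine lt_of_le_of_lt h1 ?_
  rw [sq]
  calc v (x - y) * v (x - y) < v (x - y) * 1 := by
        have h5 : 0 < v (x - y) := zero_lt_iff.mpr ((Valuation.ne_zero_iff _).mpr h0)
        exact (mul_lt_mul_iff_right₀ h5).mpr hxy
    _ = _ := mul_one _

end val

end Pool.Agent.H422.MF
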