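import Mathlib
import Pool.Agent.H422.MF.Poly

/-!
# `z ↦ P (s ^ N * z ^ e)` at one nonarchimedean place
-/

set_option autoImplicit false

open Polynomial

namespace Pool.Agent.H422.MF

open Pool.Agent.H422.HE Pool.Agent.H422.UC

section chain

variable {K : Type*} [Field K] {Γ : Type*} [LinearOrderedCommGroupWithZero Γ] (v : Valuation K Γ)

/-- Expanding dynamics on a sphere. -/
lemma chain {f : K → K} {C : K → Prop} (hC : ∀ x, C x → C (f x)) {ρ E h : Γ}
    (hρ : ∀ x, C x → v x = ρ) (hρ0 : ρ ≠ 0) {M : ℕ} (hE : E = h ^ M) (h1 : 1 < E)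
    (hstep : ∀ x y, C x → C y → v (x - y) < ρ → v (f x - f y) = E * v (x - y)) {x y : K}
    (hx : C x) (hy : C y) (px : Pre f x) (py : Pre f y) (hn : NM f x y) :
    ∃ g, v (x - y) = g ^ M * ρ := by
  have hE0 : E ≠ 0 := ne_of_gt (lt_trans zero_lt_one h1)
  have hCn : ∀ (n : ℕ) {x : K}, C x → C (f^[n] x) := by
    intro n
    induction n with
    | zero => intro x hx; exact hx
    | succ n ih => intro x hx; rw [Function.iterate_succ_apply']; exact hC _ (ih hx)
  have hle : ∀ {x y : K}, C x → C y → v (x - y) ≤ ρ := by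
    intro x y hx hy
    refine (v.map_sub _ _).trans ?_
    rw [hρ x hx, hρ y hy, max_self]
  have key : ∀ (n : ℕ) {x y : K}, C x → C y → v (f^[n] x - f^[n] y) = ρ →
      ∃ g, v (x - y) = g ^ M * ρ := by
    intro n
    induction n with
    | zero =>
      intro x y _ _ h'
      exact ⟨1, by rw [one_pow, one_mul]; exact h'⟩
    | succ n ih =>
      intro x y hx hy h'
      rw [Function.iterate_succ_apply, Function.iterate_succ_apply] at h'
      obtain ⟨g, hg⟩ := ih (hC _ hx) (hC _ hy) h'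
      rcases lt_or_eq_of_le (hle hx hy) with h2 | h2
      · rw [hstep x y hx hy h2] at hg
        have hh0 : h ^ M ≠ 0 := by rw [← hE]; exact hE0
        refine ⟨g / h, ?_⟩
        rw [div_pow, ← mul_right_inj' hE0, hg, hE, ← mul_assoc, mul_div_cancel₀ _ hh0]
      · exact ⟨1, by rw [one_pow, one_mul, h2]⟩
  by_cases hex : ∃ n, v (f^[n] x - f^[n] y) = ρ
  · obtain ⟨n, h⟩ := hex
    exact key n hx hy h
  · exfalso
    push Not at hex
    have hpow : ∀ n, v (f^[n] x - f^[n] y) = E ^ n * v (x - y) := by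
      intro n
      induction n with
      | zero => simp
      | succ n ih =>
        rw [Function.iterate_succ_apply', Function.iterate_succ_apply',
          hstep _ _ (hCn n hx) (hCn n hy) (lt_of_le_of_ne (hle (hCn n hx) (hCn n hy)) (hex n)), ih,
          pow_succ, ← mul_assoc, mul_comm E]
    obtain ⟨k, p, hp, e1, e2⟩ := common_pre px py
    have h3 := hpow (k + p)
    rw [e1, e2, hpow k] at h3
    have hxy : v (x - y) ≠ 0 := (Valuation.ne_zero_iff _).mpr (sub_ne_zero.mpr (hn 0))
    have h4 : E ^ k = E ^ (k + p) := mul_right_cancel₀ hxy h3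
    have h6 : E ^ k < E ^ (k + p) := pow_lt_pow_right₀ h1 (by omega)
    rw [← h4] at h6
    exact lt_irrefl _ h6

/-- Periodic points, no expansion. -/
lemma no_exp {f : K → K} {C : K → Prop} (hC : ∀ x, C x → C (f x))
    (hstep : ∀ x y, C x → C y → v (f x - f y) ≤ v (x - y)) {x y : K} (hx : C x) (hy : C y) (n : ℕ) :
    C (f^[n] x) ∧ C (f^[n] y) ∧ v (f^[n] x - f^[n] y) ≤ v (x - y) := by
  induction n with
  | zero => exact ⟨hx, hy, le_rfl⟩
  | succ n ih =>
    rw [Function.iterate_succ_apply', Function.iterate_succ_apply']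
    exact ⟨hC _ ih.1, hC _ ih.2.1, (hstep _ _ ih.1 ih.2.1).trans ih.2.2⟩

omit [Field K] in
/-- a strictly increasing quantity excludes preperiodicity -/
lemma not_pre_of_lt {f : K → K} {C : K → Prop} {μ : K → Γ} (hC : ∀ x, C x → C (f x))
    (hμ : ∀ x, C x → μ x < μ (f x)) {x : K} (hx : C x) (px : Pre f x) : False := by
  have hCn : ∀ (n : ℕ), C (f^[n] x) := by
    intro n
    induction n with
    | zero => exact hx
    | succ n ih => rw [Function.iterate_succ_apply']; exact hC _ ih
  have mono : StrictMono (fun n : ℕ => μ (f^[n] x)) := by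
    apply strictMono_nat_of_lt_succ
    intro n
    rw [Function.iterate_succ_apply']
    exact hμ _ (hCn n)
  obtain ⟨m, n, hmn, he⟩ := px
  have := mono hmn
  simp only [he] at this
  exact lt_irrefl _ this

end chain

/-- the map `z ↦ P (s ^ N * z ^ e)` -/
def fP {K : Type*} [Field K] (P : K[X]) (N e : ℕ) (s : K) : K → K := fun z => P.eval (s ^ N * z ^ e)

section

variable {K : Type*} [Field K] {Γ : Type*} [LinearOrderedCommGroupWithZero Γ] {v : Valuation K Γ}
  {P : K[X]} {N e : ℕ} {s : K}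

lemma v_W (z : K) : v (s ^ N * z ^ e) = v s ^ N * v z ^ e := by rw [map_mul, map_pow, map_pow]

lemma fP_root {ζ z : K} (h : ζ ^ e = 1) : fP P N e s (ζ * z) = fP P N e s z := by
  simp only [fP]; rw [mul_pow, h, one_mul]

lemma NM_root {ζ x y : K} (h : ζ ^ e = 1) (hn : NM (fP P N e s) x y) :
    NM (fP P N e s) x (ζ * y) := by
  have hFz := fP_root (P := P) (N := N) (s := s) (z := y) h
  intro n
  match n with
  | 0 =>
    intro h1
    simp only [Function.iterate_zero, id] at h1
    apply hn 1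
    rw [Function.iterate_one, h1, hFz]
  | n + 1 =>
    rw [Function.iterate_succ_apply, Function.iterate_succ_apply, hFz]
    have := hn (n + 1)
    rwa [Function.iterate_succ_apply, Function.iterate_succ_apply] at this

/-! ### `1 < v s` -/

section big

variable (hP : GP v P) (hm : 1 ≤ P.natDegree) (hN : 0 < N) (he : 2 ≤ e) (hs : 1 < v s)

include hP hm hN he hs in
lemma big_le {x : K} (px : Pre (fP P N e s) x) : v (s ^ N * x ^ e) ≤ 1 := by
  by_contra hcon
  rw [not_le] at hcon
  have hA : 1 < v s ^ N := one_lt_pow₀ hs (by omega)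
  have key : ∀ x : K, 1 < v (s ^ N * x ^ e) →
      v (s ^ N * x ^ e) < v (s ^ N * (fP P N e s x) ^ e) := by
    intro x hx
    have h1 : v (fP P N e s x) = v (s ^ N * x ^ e) ^ P.natDegree := hP.eval_big hx
    rw [v_W (fP P N e s x), h1, ← pow_mul]
    have h2 : v (s ^ N * x ^ e) ≤ v (s ^ N * x ^ e) ^ (P.natDegree * e) :=
      le_self_pow₀ hx.le (by positivity)
    calc v (s ^ N * x ^ e) ≤ v (s ^ N * x ^ e) ^ (P.natDegree * e) := h2
      _ = 1 * v (s ^ N * x ^ e) ^ (P.natDegree * e) := (one_mul _).symm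
      _ < v s ^ N * v (s ^ N * x ^ e) ^ (P.natDegree * e) := by
        apply mul_lt_mul_of_pos_right hA
        exact lt_of_lt_of_le (lt_trans zero_lt_one hx) h2
  exact not_pre_of_lt (f := fP P N e s) (C := fun x => 1 < v (s ^ N * x ^ e))
    (μ := fun x => v (s ^ N * x ^ e)) (fun x hx => hx.trans (key x hx)) key hcon px

include hP hm hN he hs in
lemma big_eq {x : K} (px : Pre (fP P N e s) x) : v (s ^ N * x ^ e) = 1 := by
  refine le_antisymm (big_le hP hm hN he hs px) ?_
  by_contra hcon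
  rw [not_le] at hcon
  have h1 : v (fP P N e s x) = 1 := hP.eval_small hcon
  have h2 := big_le hP hm hN he hs px.step
  rw [v_W, h1, one_pow, mul_one] at h2
  exact absurd h2 (not_le.mpr (one_lt_pow₀ hs (by omega)))

include hP hm hN he hs in
/-- bad places where `s` is large: factors of never merging pairs -/
theorem big_all {ζ₀ : K} (hζ : IsPrimitiveRoot ζ₀ e)
    (htame : ∀ ζ : K, ζ ^ e = 1 → ζ ≠ 1 → v (1 - ζ) = 1) {x y : K}
    (px : Pre (fP P N e s) x) (py : Pre (fP P N e s) y) (hn : NM (fP P N e s) x y)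
    {ζ : K} (h : ζ ^ e = 1) :
    ∃ g, v (x - ζ * y) = g ^ (N / Nat.gcd e N) * v y := by
  have hs0 : v s ≠ 0 := ne_of_gt (lt_trans zero_lt_one hs)
  have hW : ∀ {x : K}, Pre (fP P N e s) x → v s ^ N * v x ^ e = 1 := by
    intro x px
    rw [← v_W]; exact big_eq hP hm hN he hs px
  have hv0 : ∀ {x : K}, Pre (fP P N e s) x → v x ≠ 0 := by
    intro x px h0
    have := hW px
    rw [h0, zero_pow (by omega), mul_zero] at this
    exact zero_ne_one this
  have hveq : ∀ {x y : K}, Pre (fP P N e s) x → Pre (fP P N e s) y → v x = v y := by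
    intro x y px py
    have h1 := (hW px).trans (hW py).symm
    exact (pow_left_inj₀ zero_le zero_le (by omega)).mp (mul_left_cancel₀ (pow_ne_zero _ hs0) h1)
  set ρ := v y with hρ
  have hρ0 : ρ ≠ 0 := hv0 py
  have hρe : v s ^ N * ρ ^ e = 1 := hW py
  have hE : (ρ⁻¹) ^ e = v s ^ N := by
    rw [inv_pow]
    exact inv_eq_of_mul_eq_one_left hρe
  obtain ⟨g0, hg0⟩ := pow_cl_nat (inv_ne_zero hρ0) (by omega) hE
  have hρ1 : ρ < 1 := by
    by_contra hcon
    rw [not_lt] at hcon
    have h1 : 1 < v s ^ N * ρ ^ e :=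
      lt_of_lt_of_le (one_lt_pow₀ hs (by omega)) (le_mul_of_one_le_right' (one_le_pow₀ hcon))
    rw [hρe] at h1
    exact lt_irrefl _ h1
  have hE1 : 1 < ρ⁻¹ := (one_lt_inv₀ (zero_lt_iff.mpr hρ0)).mpr hρ1
  refine chain v (f := fP P N e s) (C := Pre (fP P N e s)) (fun x hx => hx.step)
    (ρ := ρ) (E := ρ⁻¹) (fun x hx => hveq hx py) hρ0 hg0 hE1 ?_ px ?_ px ?_ (NM_root h hn)
  · intro x y px py hxy
    have hyρ : v y = ρ := hveq py ‹_›
    have h1 : v (x ^ e - y ^ e) = v y ^ (e - 1) * v (x - y) :=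
      bad_step v hζ he htame (by rw [hyρ]; exact hxy)
    have h2 : v (s ^ N * x ^ e - s ^ N * y ^ e) = ρ⁻¹ * v (x - y) := by
      rw [← mul_sub, map_mul, map_pow, h1, hyρ]
      have h3 : ρ ^ e = ρ ^ (e - 1) * ρ := by rw [← pow_succ]; congr 1; omega
      rw [h3] at hρe
      rw [← mul_assoc]
      congr 1
      rw [← mul_assoc] at hρe
      exact eq_inv_of_mul_eq_one_left hρe
    have h4 : v (s ^ N * x ^ e - s ^ N * y ^ e) < 1 := by
      rw [h2, inv_mul_lt_iff₀ (zero_lt_iff.mpr hρ0), mul_one]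
      exact hxy
    have h5 : v (P.eval (s ^ N * y ^ e)) < 1 := by
      have h6 := hveq py.step py
      change v (P.eval (s ^ N * y ^ e)) = v y at h6
      rw [h6, hyρ]; exact hρ1
    rw [← h2]
    exact hP.diff_eq (big_eq hP hm hN he hs px).le (big_eq hP hm hN he hs py).le h4 h5
  · apply Pre.of_step
    rw [fP_root h]
    exact py.step
  · apply Pre.of_step
    rw [fP_root h]
    exact py.step

end big

end

end Pool.Agent.H422.MF
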