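import Mathlib
import Pool.Agent.H422.MF.LocP

/-!
# `z ↦ P (s ^ N * z ^ e)` at places where `s` is a unit or small
-/

set_option autoImplicit false

open Polynomial

namespace Pool.Agent.H422.MF

open Pool.Agent.H422.HE Pool.Agent.H422.UC

section gen

variable {K : Type*} [Field K] {Γ : Type*} [LinearOrderedCommGroupWithZero Γ] (v : Valuation K Γ)

lemma pow_close {x y : K} (h : v (x - y) < v y) (n : ℕ) : v (x ^ n - y ^ n) < v y ^ n := by
  have hy : v y ≠ 0 := by
    intro h0
    rw [h0] at h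
    exact absurd h (not_lt.mpr zero_le)
  have hy0 : y ≠ 0 := by
    rintro rfl
    exact hy (map_zero v)
  have h1 : v (x / y - 1) < 1 := by
    have : x / y - 1 = (x - y) / y := by field_simp
    rw [this, map_div₀, div_lt_one₀ (zero_lt_iff.mpr hy)]
    exact h
  have h2 : v (x / y) ≤ 1 := by
    have : x / y = (x / y - 1) + 1 := by ring
    rw [this]
    exact (v.map_add _ _).trans (max_le h1.le (by rw [map_one]))
  have h3 := pow_sub_pow_le v h2 (r := 1) (by rw [map_one]) n
  have h4 : x ^ n - y ^ n = y ^ n * ((x / y) ^ n - 1 ^ n) := by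
    rw [div_pow, one_pow]; field_simp
  rw [h4, map_mul, map_pow]
  calc v y ^ n * v ((x / y) ^ n - 1 ^ n) < v y ^ n * 1 := by
        have h5 : 0 < v y ^ n := zero_lt_iff.mpr (pow_ne_zero _ hy)
        exact (mul_lt_mul_iff_right₀ h5).mpr (lt_of_le_of_lt h3 h1)
    _ = _ := mul_one _

lemma eval_close {P : K[X]} (hP : GP v P) {x y : K} (h : v (x - y) < v y) (hy : 1 < v y) :
    v (P.eval x - P.eval y) < v (P.eval y) := by
  have hxy : v x = v y := by
    have : x = y + (x - y) := by ring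
    rw [this, Valuation.map_add_eq_of_lt_left]
    exact h
  have h1 := hP.eval_sub_big (w := x) (by rw [hxy]; exact hy)
  have h2 := hP.eval_sub_big hy
  have h3 := pow_close v h P.natDegree
  rw [hP.eval_big hy]
  have h4 : P.eval x - P.eval y = (P.eval x - P.leadingCoeff * x ^ P.natDegree) -
      (P.eval y - P.leadingCoeff * y ^ P.natDegree) +
      P.leadingCoeff * (x ^ P.natDegree - y ^ P.natDegree) := by ring
  rw [h4]
  refine lt_of_le_of_lt (v.map_add _ _) (max_lt ?_ ?_)
  · refine lt_of_le_of_lt (v.map_sub _ _) (max_lt ?_ h2)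
    rw [hxy] at h1
    exact h1
  · rw [map_mul, hP.lc, one_mul]; exact h3

/-- good reduction: differences of periodic points -/
theorem good_gen {f : K → K} {e : ℕ} {ζ₀ : K} (hζ : IsPrimitiveRoot ζ₀ e) (he : 2 ≤ e)
    (hint : ∀ x, Per f x → v x ≤ 1)
    (hstep : ∀ x y, v x ≤ 1 → v y ≤ 1 → v (f x - f y) ≤ v (x ^ e - y ^ e)) {x y : K}
    (hx : Per f x) (hy : Per f y) (hne : x ≠ y) {ζ : K} (h : ζ ^ e = 1) (h1 : ζ ≠ 1) :
    v (x - ζ * y) = 1 := by
  classical
  have hle : ∀ {x y : K}, Per f x → Per f y → ∀ ζ : K, ζ ^ e = 1 → v (x - ζ * y) ≤ 1 := by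
    intro x y hx hy ζ h
    refine (v.map_sub _ _).trans (max_le (hint x hx) ?_)
    rw [map_mul, root_v v he h, one_mul]
    exact hint y hy
  have hpr : ∀ x y : K, v (x ^ e - y ^ e) =
      v (x - y) * ∏ ζ ∈ (nthRootsFinset e (1 : K)).erase 1, v (x - ζ * y) := by
    intro x y
    rw [prod_eq v hζ he, ← Finset.mul_prod_erase _ (fun ζ => v (x - ζ * y))
      ((mem_roots' he).mpr (one_pow e)), one_mul]
  have hQ : ∀ {x y : K}, Per f x → Per f y →
      ∏ ζ ∈ (nthRootsFinset e (1 : K)).erase 1, v (x - ζ * y) ≤ 1 := by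
    intro x y hx hy
    apply Finset.prod_le_one'
    intro ζ hζ'
    exact hle hx hy ζ ((mem_roots' he).mp (Finset.mem_of_mem_erase hζ'))
  have hst : ∀ x y : K, Per f x → Per f y → v (f x - f y) ≤ v (x - y) *
      ∏ ζ ∈ (nthRootsFinset e (1 : K)).erase 1, v (x - ζ * y) := by
    intro x y hx hy
    rw [← hpr]
    exact hstep x y (hint x hx) (hint y hy)
  obtain ⟨n, hn, e1, e2⟩ := common_period hx hy
  obtain ⟨-, -, h2⟩ := no_exp v (f := f) (C := Per f) (fun x hx => hx.step) (by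
    intro x y hx hy
    refine (hst x y hx hy).trans ?_
    calc v (x - y) * _ ≤ v (x - y) * 1 := mul_le_mul' le_rfl (hQ hx hy)
      _ = v (x - y) := mul_one _) hx.step hy.step (n - 1)
  rw [← Function.iterate_succ_apply, ← Function.iterate_succ_apply, Nat.succ_eq_add_one,
    Nat.sub_add_cancel hn, e1, e2] at h2
  have h2' := h2.trans (hst x y hx hy)
  have hxy : v (x - y) ≠ 0 := (Valuation.ne_zero_iff _).mpr (sub_ne_zero.mpr hne)
  have h3 : ∏ ζ ∈ (nthRootsFinset e (1 : K)).erase 1, v (x - ζ * y) = 1 := by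
    refine le_antisymm (hQ hx hy) ?_
    have h4 : v (x - y) * 1 ≤ v (x - y) * ∏ ζ ∈ (nthRootsFinset e (1 : K)).erase 1,
        v (x - ζ * y) := by
      rw [mul_one]; exact h2'
    exact (mul_le_mul_iff_right₀ (zero_lt_iff.mpr hxy)).mp h4
  refine all_eq_one _ _ (fun ζ' hζ' => ?_) h3 ζ ?_
  · exact hle hx hy ζ' ((mem_roots' he).mp (Finset.mem_of_mem_erase hζ'))
  · exact Finset.mem_erase.mpr ⟨h1, (mem_roots' he).mpr h⟩

end gen

section

variable {K : Type*} [Field K] {Γ : Type*} [LinearOrderedCommGroupWithZero Γ] {v : Valuation K Γ}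
  {P : K[X]} {N e : ℕ} {s : K}

/-! ### `v s = 1` -/

section unit

variable (hP : GP v P) (hm : 1 ≤ P.natDegree) (he : 2 ≤ e) (hs : v s = 1)

include hP hm he hs in
lemma unit_int {x : K} (px : Pre (fP P N e s) x) : v x ≤ 1 := by
  by_contra hcon
  rw [not_le] at hcon
  have key : ∀ x : K, 1 < v x → v x < v (fP P N e s x) := by
    intro x hx
    have hW : v (s ^ N * x ^ e) = v x ^ e := by rw [v_W, hs, one_pow, one_mul]
    have h1 : 1 < v (s ^ N * x ^ e) := by rw [hW]; exact one_lt_pow₀ hx (by omega)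
    have h2 : v (fP P N e s x) = v (s ^ N * x ^ e) ^ P.natDegree := hP.eval_big h1
    rw [h2, hW, ← pow_mul]
    calc v x = v x ^ 1 := (pow_one _).symm
      _ < v x ^ (e * P.natDegree) := pow_lt_pow_right₀ hx (by nlinarith)
  exact not_pre_of_lt (f := fP P N e s) (C := fun x => 1 < v x)
    (μ := fun x => v x) (fun x hx => hx.trans (key x hx)) key hcon px

include hP hm he hs in
theorem unit_all {ζ₀ : K} (hζ : IsPrimitiveRoot ζ₀ e) {x y : K}
    (px : Per (fP P N e s) x) (py : Per (fP P N e s) y) (hne : x ≠ y)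
    {ζ : K} (h : ζ ^ e = 1) (h1 : ζ ≠ 1) : v (x - ζ * y) = 1 := by
  refine good_gen v hζ he (fun x hx => unit_int hP hm he hs hx.pre) ?_ px py hne h h1
  intro x y hx hy
  have hW : ∀ {x : K}, v x ≤ 1 → v (s ^ N * x ^ e) ≤ 1 := by
    intro x hx
    rw [v_W, hs, one_pow, one_mul]
    exact pow_le_one' hx e
  refine (eval_sub_le v hP.int (hW hx) (hW hy)).trans ?_
  rw [← mul_sub, map_mul, map_pow, hs, one_pow, one_mul]

end unit

/-! ### `v s < 1` -/

section small

variable (hP : GP v P) (hN : 0 < N) (he : 2 ≤ e) (hs : v s < 1)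

include hP hN hs in
lemma small_step {x : K} (h : v (s ^ N * x ^ e) ≤ 1) :
    v (s ^ N * (fP P N e s x) ^ e) < 1 := by
  have h1 : v (fP P N e s x) ≤ 1 := eval_le_one v hP.int h
  rw [v_W]
  calc v s ^ N * v (fP P N e s x) ^ e ≤ v s ^ N * 1 := mul_le_mul' le_rfl (pow_le_one' h1 e)
    _ = v s ^ N := mul_one _
    _ < 1 := pow_lt_one₀ zero_le hs (by omega)

include hP hN hs in
lemma small_Z0 {x : K} (px : Per (fP P N e s) x) (h : v (s ^ N * x ^ e) ≤ 1) :
    v (s ^ N * x ^ e) < 1 ∧ v x = 1 := by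
  have h1 : ∀ n, v (s ^ N * ((fP P N e s)^[n + 1] x) ^ e) < 1 := by
    intro n
    induction n with
    | zero => exact small_step hP hN hs h
    | succ n ih =>
      rw [Function.iterate_succ_apply']
      exact small_step hP hN hs ih.le
  obtain ⟨p, hp, hpx⟩ := px
  have h2 : v (s ^ N * x ^ e) < 1 := by
    have := h1 (p - 1)
    rwa [Nat.sub_add_cancel hp, hpx] at this
  refine ⟨h2, ?_⟩
  have h3 : v (s ^ N * ((fP P N e s)^[p - 1] x) ^ e) < 1 := by
    rcases Nat.eq_zero_or_pos (p - 1) with h0 | h0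
    · rw [h0]; exact h2
    · have := h1 (p - 1 - 1)
      rwa [Nat.sub_add_cancel h0] at this
  have h4 : v (fP P N e s ((fP P N e s)^[p - 1] x)) = 1 := hP.eval_small h3
  rw [← Function.iterate_succ_apply' (fP P N e s), Nat.succ_eq_add_one, Nat.sub_add_cancel hp,
    hpx] at h4
  exact h4

include hP hN hs in
lemma small_contr {x y : K} (px : Per (fP P N e s) x) (py : Per (fP P N e s) y)
    (hx : v (s ^ N * x ^ e) ≤ 1) (hy : v (s ^ N * y ^ e) ≤ 1) : x = y := by
  by_contra hne
  have hst : ∀ x y : K, (Per (fP P N e s) x ∧ v (s ^ N * x ^ e) ≤ 1) →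
      (Per (fP P N e s) y ∧ v (s ^ N * y ^ e) ≤ 1) →
      v (fP P N e s x - fP P N e s y) ≤ v s ^ N * v (x - y) := by
    intro x y hx hy
    have h1 := eval_sub_le v hP.int hx.2 hy.2
    refine h1.trans ?_
    rw [← mul_sub, map_mul, map_pow]
    exact mul_le_mul' le_rfl (pow_sub_pow_le v (small_Z0 hP hN hs hx.1 hx.2).2.le
      (small_Z0 hP hN hs hy.1 hy.2).2.le e)
  have hlt : v s ^ N < 1 := pow_lt_one₀ zero_le hs (by omega)
  obtain ⟨n, hn, e1, e2⟩ := common_period px py
  obtain ⟨-, -, h2⟩ := no_exp v (f := fP P N e s)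
    (C := fun x => Per (fP P N e s) x ∧ v (s ^ N * x ^ e) ≤ 1)
    (fun x hx => ⟨hx.1.step, (small_step hP hN hs hx.2).le⟩) (by
      intro x y hx hy
      refine (hst x y hx hy).trans ?_
      calc v s ^ N * v (x - y) ≤ 1 * v (x - y) := mul_le_mul' hlt.le le_rfl
        _ = v (x - y) := one_mul _)
    (x := fP P N e s x) (y := fP P N e s y) ⟨px.step, (small_step hP hN hs hx).le⟩
    ⟨py.step, (small_step hP hN hs hy).le⟩ (n - 1)
  rw [← Function.iterate_succ_apply, ← Function.iterate_succ_apply, Nat.succ_eq_add_one,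
    Nat.sub_add_cancel hn, e1, e2] at h2
  have h3 := h2.trans (hst x y ⟨px, hx⟩ ⟨py, hy⟩)
  have hxy : 0 < v (x - y) := zero_lt_iff.mpr ((Valuation.ne_zero_iff _).mpr (sub_ne_zero.mpr hne))
  have h4 : v s ^ N * v (x - y) < 1 * v (x - y) := (mul_lt_mul_iff_left₀ hxy).mpr hlt
  rw [one_mul] at h4
  exact absurd h3 (not_le.mpr h4)

include hP hN he hs in
/-- places where `s` is small: the factors all have the same absolute value -/
theorem small_all (hs0 : s ≠ 0) (htame : ∀ ζ : K, ζ ^ e = 1 → ζ ≠ 1 → v (1 - ζ) = 1) {x y : K}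
    (px : Per (fP P N e s) x) (py : Per (fP P N e s) y) (hne : x ≠ y) (hy0 : y ≠ 0)
    {ζ : K} (h : ζ ^ e = 1) (h1 : ζ ≠ 1) : v (x - ζ * y) = max (v x) (v y) := by
  have hζy : v (ζ * y) = v y := by rw [map_mul, root_v v he h, one_mul]
  rcases lt_trichotomy (v x) (v y) with hlt | heq | hgt
  · rw [Valuation.map_sub_eq_of_lt_right, hζy, max_eq_right hlt.le]
    rw [hζy]; exact hlt
  swap
  · rw [Valuation.map_sub_eq_of_lt_left, max_eq_left hgt.le]
    rw [hζy]; exact hgt
  rw [heq, max_self]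
  have hvy : v y ≠ 0 := (Valuation.ne_zero_iff _).mpr hy0
  have hle : v (x - ζ * y) ≤ v y := by
    refine (v.map_sub _ _).trans ?_
    rw [hζy, heq, max_self]
  by_contra hcon
  have hlt : v (x - ζ * y) < v y := lt_of_le_of_ne hle hcon
  -- neither point is in the attracting basin
  have hWeq : v (s ^ N * x ^ e) = v (s ^ N * y ^ e) := by rw [v_W, v_W, heq]
  have hbig : 1 < v (s ^ N * y ^ e) := by
    by_contra hc
    rw [not_lt] at hc
    exact hne (small_contr hP hN hs px py (by rw [hWeq]; exact hc) hc)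
  have hper : ∀ {z : K}, Per (fP P N e s) z → 1 < v (s ^ N * z ^ e) →
      1 < v (s ^ N * (fP P N e s z) ^ e) := by
    intro z hz hz1
    by_contra hc
    rw [not_lt] at hc
    have h2 : ∀ n, v (s ^ N * ((fP P N e s)^[n + 1] z) ^ e) ≤ 1 := by
      intro n
      induction n with
      | zero => exact hc
      | succ n ih =>
        rw [Function.iterate_succ_apply']
        exact (small_step hP hN hs ih).le
    obtain ⟨p, hp, hpx⟩ := hz
    have h3 := h2 (p - 1)
    rw [Nat.sub_add_cancel hp, hpx] at h3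
    exact absurd hz1 (not_lt.mpr h3)
  have hs0' : v s ≠ 0 := (Valuation.ne_zero_iff _).mpr hs0
  have hst : ∀ x y : K, 1 < v (s ^ N * y ^ e) → v (x - y) < v y →
      v (fP P N e s x - fP P N e s y) < v (fP P N e s y) := by
    intro x y hy hxy
    refine eval_close v hP ?_ hy
    rw [← mul_sub, map_mul, v_W, map_pow]
    exact (mul_lt_mul_iff_right₀ (zero_lt_iff.mpr (pow_ne_zero _ hs0'))).mpr (pow_close v hxy e)
  have hit : ∀ n, v ((fP P N e s)^[n + 1] x - (fP P N e s)^[n + 1] y) <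
      v ((fP P N e s)^[n + 1] y) ∧ 1 < v (s ^ N * ((fP P N e s)^[n + 1] y) ^ e) := by
    intro n
    induction n with
    | zero =>
      have h2 := hst x (ζ * y) (by rw [v_W, hζy, ← v_W]; exact hbig) (by rw [hζy]; exact hlt)
      rw [fP_root h] at h2
      exact ⟨h2, hper py hbig⟩
    | succ n ih =>
      rw [Function.iterate_succ_apply' _ (n + 1) x, Function.iterate_succ_apply' _ (n + 1) y]
      exact ⟨hst _ _ ih.2 ih.1, hper (py.iter _) ih.2⟩
  obtain ⟨p, hp, e1, e2⟩ := common_period px py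
  have h2 := (hit (p - 1)).1
  rw [Nat.sub_add_cancel hp, e1, e2] at h2
  have h3 : v ((1 - ζ) * y) = v y := by rw [map_mul, htame ζ h h1, one_mul]
  have h4 : (1 - ζ) * y = (x - ζ * y) - (x - y) := by ring
  have h5 : v ((1 - ζ) * y) < v y := by
    rw [h4]
    exact lt_of_le_of_lt (v.map_sub _ _) (max_lt hlt h2)
  rw [h3] at h5
  exact lt_irrefl _ h5

end small

end

end Pool.Agent.H422.MF
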