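import Mathlib
import Pool.Agent.H422.UC.North
import Pool.Agent.H422.MF.LocP

/-!
# Northcott for polynomial maps over a number field
-/

set_option autoImplicit false

open Polynomial IsDedekindDomain NumberField Filter

namespace Pool.Agent.H422.MF

open Pool.Agent.H422.HE Pool.Agent.H422.UC

lemma arch_grow {F : ℂ[X]} (hF : 2 ≤ F.natDegree) : ∃ C : ℝ, ∀ z : ℂ, C ≤ ‖z‖ → ‖z‖ < ‖F.eval z‖ := by
  have hG : 0 < F.divX.degree := by
    rw [← natDegree_pos_iff_degree_pos, natDegree_divX_eq_natDegree_tsub_one]
    omega
  have ht : Tendsto (fun z : ℂ => ‖F.divX.eval z‖) (comap norm atTop) atTop :=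
    Polynomial.tendsto_norm_atTop _ hG tendsto_comap
  have h1 : ∀ᶠ z in comap (norm : ℂ → ℝ) atTop, 2 ≤ ‖F.divX.eval z‖ :=
    ht.eventually_ge_atTop 2
  rw [eventually_comap] at h1
  obtain ⟨C, hC⟩ := eventually_atTop.mp h1
  refine ⟨max C (‖F.coeff 0‖ + 1), fun z hz => ?_⟩
  have h2 := hC ‖z‖ ((le_max_left _ _).trans hz) z rfl
  have h3 : ‖F.coeff 0‖ + 1 ≤ ‖z‖ := (le_max_right _ _).trans hz
  have h4 : F.eval z = F.divX.eval z * z + F.coeff 0 := by
    conv_lhs => rw [← divX_mul_X_add F]
    simp
  rw [h4]
  have h5 := norm_sub_norm_le (F.divX.eval z * z) (-(F.coeff 0))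
  rw [norm_neg, sub_neg_eq_add, norm_mul] at h5
  have h6 : 2 * ‖z‖ ≤ ‖F.divX.eval z‖ * ‖z‖ := mul_le_mul_of_nonneg_right h2 (norm_nonneg z)
  have h7 := norm_nonneg (F.coeff 0)
  linarith

lemma map_iter_poly {K L : Type*} [Field K] [Field L] (φ : K →+* L) (F : K[X]) (n : ℕ) (x : K) :
    (fun z => (F.map φ).eval z)^[n] (φ x) = φ ((fun z => F.eval z)^[n] x) := by
  induction n with
  | zero => rfl
  | succ n ih =>
    rw [Function.iterate_succ_apply', Function.iterate_succ_apply', ih]
    simp [eval_map, eval₂_at_apply]

lemma pre_map_poly {K L : Type*} [Field K] [Field L] (φ : K →+* L) {F : K[X]} {x : K}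
    (h : Pre (fun z => F.eval z) x) : Pre (fun z => (F.map φ).eval z) (φ x) := by
  obtain ⟨m, n, hmn, he⟩ := h
  exact ⟨m, n, hmn, by rw [map_iter_poly, map_iter_poly, he]⟩

/-- **Northcott** for polynomial maps of degree at least two. -/
theorem northcott_poly (K : Type) [Field K] [NumberField K] {F : K[X]} (hF : 2 ≤ F.natDegree) :
    {x : K | Pre (fun z => F.eval z) x}.Finite := by
  classical
  have hlc : F.leadingCoeff ≠ 0 := by
    intro h
    rw [leadingCoeff_eq_zero] at h
    rw [h] at hF
    simp at hF
  -- a common denominator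
  obtain ⟨⟨q, hq⟩, hqT⟩ := IsLocalization.exist_integer_multiples_of_finset
    (nonZeroDivisors (𝓞 K)) (S := K)
    ((Finset.range (F.natDegree + 1)).image F.coeff ∪ {F.leadingCoeff⁻¹})
  have hq0 : q ≠ 0 := nonZeroDivisors.ne_zero hq
  set a := algebraMap (𝓞 K) K q with ha
  have ha0 : a ≠ 0 := by simpa [ha] using hq0
  have hmul : ∀ c ∈ ((Finset.range (F.natDegree + 1)).image F.coeff ∪ {F.leadingCoeff⁻¹}),
      ∀ v : HeightOneSpectrum (𝓞 K), v.valuation K (a * c) ≤ 1 := by
    intro c hc v
    obtain ⟨r, hr⟩ := hqT c hc
    have : a * c = algebraMap (𝓞 K) K r := by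
      rw [hr, Algebra.smul_def]
    rw [this]
    exact v.valuation_le_one r
  have hcoef : ∀ (i : ℕ) (v : HeightOneSpectrum (𝓞 K)), v.valuation K (a * F.coeff i) ≤ 1 := by
    intro i v
    rcases lt_or_ge F.natDegree i with h | h
    · rw [coeff_eq_zero_of_natDegree_lt h, mul_zero, map_zero]; exact zero_le
    · exact hmul _ (Finset.mem_union_left _ (Finset.mem_image_of_mem _
        (Finset.mem_range.mpr (by omega)))) v
  have hinv : ∀ v : HeightOneSpectrum (𝓞 K), v.valuation K (a * F.leadingCoeff⁻¹) ≤ 1 :=
    hmul _ (Finset.mem_union_right _ (Finset.mem_singleton_self _))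
  -- archimedean bounds
  have harch : ∀ φ : K →+* ℂ, ∃ C : ℝ, ∀ x : K, Pre (fun z => F.eval z) x → ‖φ x‖ ≤ C := by
    intro φ
    obtain ⟨C, hC⟩ := arch_grow (F := F.map φ) (by rwa [natDegree_map])
    refine ⟨C, fun x hx => ?_⟩
    by_contra hcon
    rw [not_le] at hcon
    have hx' := pre_map_poly φ hx
    have key : ∀ n, C < ‖(fun z => (F.map φ).eval z)^[n] (φ x)‖ := by
      intro n
      induction n with
      | zero => exact hcon
      | succ n ih =>
        rw [Function.iterate_succ_apply']
        exact ih.trans (hC _ ih.le)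
    have mono : StrictMono (fun n : ℕ => ‖(fun z => (F.map φ).eval z)^[n] (φ x)‖) := by
      apply strictMono_nat_of_lt_succ
      intro n
      rw [Function.iterate_succ_apply']
      exact hC _ (key n).le
    obtain ⟨m, n, hmn, he⟩ := hx'
    have := mono hmn
    simp only [he] at this
    exact lt_irrefl _ this
  choose C hC using harch
  set B : ℝ := ∑ φ : K →+* ℂ, ‖φ (a ^ 2)‖ * max (C φ) 0 with hB
  have hfin := NumberField.Embeddings.finite_of_norm_le K ℂ B
  have ha2 : a ^ 2 ≠ 0 := pow_ne_zero _ ha0
  refine (hfin.preimage (f := fun x => a ^ 2 * x) (mul_right_injective₀ ha2).injOn).subset ?_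
  intro x hx
  have hx' : Pre (fun z => F.eval z) x := hx
  refine ⟨?_, ?_⟩
  · have hint : ∀ v : HeightOneSpectrum (𝓞 K), v.valuation K (a ^ 2 * x) ≤ 1 := by
      intro v
      by_contra hcon
      rw [not_le] at hcon
      have va : v.valuation K a ≤ 1 := v.valuation_le_one q
      have va0 : v.valuation K a ≠ 0 := (Valuation.ne_zero_iff _).mpr ha0
      have key : ∀ x : K, 1 < v.valuation K (a ^ 2 * x) →
          v.valuation K x < v.valuation K (F.eval x) := by
        intro x hx
        have hx1 : 1 < v.valuation K x := by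
          rw [map_mul, map_pow] at hx
          refine lt_of_lt_of_le hx ?_
          calc v.valuation K a ^ 2 * v.valuation K x ≤ 1 * v.valuation K x :=
                mul_le_mul' (pow_le_one' va 2) le_rfl
            _ = _ := one_mul _
        have hx0 : v.valuation K x ≠ 0 := ne_of_gt (lt_trans zero_lt_one hx1)
        have hlcv : v.valuation K a ≤ v.valuation K F.leadingCoeff := by
          have h1 := hinv v
          rw [map_mul, map_inv₀] at h1
          have h2 : 0 < v.valuation K F.leadingCoeff :=
            zero_lt_iff.mpr ((Valuation.ne_zero_iff _).mpr hlc)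
          rwa [← div_eq_mul_inv, div_le_one₀ h2] at h1
        -- the leading term dominates
        have hdom : v.valuation K (F.eval x) =
            v.valuation K F.leadingCoeff * v.valuation K x ^ F.natDegree := by
          rw [eval_eq_sum_range, Finset.sum_range_succ, add_comm,
            Valuation.map_add_eq_of_lt_left, map_mul, map_pow]
          · rfl
          rw [map_mul, map_pow]
          apply Valuation.map_sum_lt
          · exact mul_ne_zero ((Valuation.ne_zero_iff _).mpr hlc) (pow_ne_zero _ hx0)
          · intro i hi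
            rw [Finset.mem_range] at hi
            change v.valuation K (F.coeff i * x ^ i) <
              v.valuation K F.leadingCoeff * v.valuation K x ^ F.natDegree
            have h1 : v.valuation K a * v.valuation K (F.coeff i * x ^ i) ≤
                v.valuation K x ^ (F.natDegree - 1) := by
              rw [← map_mul, ← mul_assoc, map_mul, map_pow]
              calc _ ≤ 1 * v.valuation K x ^ i := mul_le_mul' (hcoef i v) le_rfl
                _ = v.valuation K x ^ i := one_mul _
                _ ≤ _ := pow_le_pow_right₀ hx1.le (by omega)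
            have h2 : v.valuation K x ^ (F.natDegree - 1) <
                v.valuation K a * (v.valuation K a * v.valuation K x ^ F.natDegree) := by
              have h3 : v.valuation K x ^ F.natDegree =
                  v.valuation K x * v.valuation K x ^ (F.natDegree - 1) := by
                rw [← pow_succ']; congr 1; omega
              rw [h3]
              calc v.valuation K x ^ (F.natDegree - 1) = 1 * v.valuation K x ^ (F.natDegree - 1) :=
                    (one_mul _).symm
                _ < v.valuation K (a ^ 2 * x) * v.valuation K x ^ (F.natDegree - 1) := by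
                    have h4 : 0 < v.valuation K x ^ (F.natDegree - 1) :=
                      zero_lt_iff.mpr (pow_ne_zero _ hx0)
                    exact (mul_lt_mul_iff_left₀ h4).mpr hx
                _ = _ := by rw [map_mul, map_pow, sq]; simp only [mul_assoc]
            have h5 : v.valuation K a * v.valuation K (F.coeff i * x ^ i) <
                v.valuation K a * (v.valuation K a * v.valuation K x ^ F.natDegree) :=
              lt_of_le_of_lt h1 h2
            have h6 := (mul_lt_mul_iff_right₀ (zero_lt_iff.mpr va0)).mp h5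
            exact lt_of_lt_of_le h6 (mul_le_mul' hlcv le_rfl)
        rw [hdom]
        have h1 : v.valuation K x ^ F.natDegree =
            v.valuation K x ^ (F.natDegree - 1) * v.valuation K x := by
          rw [← pow_succ]; congr 1; omega
        rw [h1, ← mul_assoc]
        have h2 : 1 < v.valuation K F.leadingCoeff * v.valuation K x ^ (F.natDegree - 1) := by
          calc (1 : _) < v.valuation K (a ^ 2 * x) := hx
            _ = v.valuation K a * (v.valuation K a * v.valuation K x) := by
                rw [map_mul, map_pow, sq, mul_assoc]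
            _ ≤ v.valuation K F.leadingCoeff * (1 * v.valuation K x ^ (F.natDegree - 1)) :=
                mul_le_mul' hlcv (mul_le_mul' va (le_self_pow₀ hx1.le (by omega)))
            _ = _ := by rw [one_mul]
        calc v.valuation K x = 1 * v.valuation K x := (one_mul _).symm
          _ < _ := (mul_lt_mul_iff_left₀ (zero_lt_iff.mpr hx0)).mpr h2
      refine not_pre_of_lt (f := fun z => F.eval z) (C := fun x => 1 < v.valuation K (a ^ 2 * x))
        (μ := fun x => v.valuation K x) (fun x hx => ?_) key hcon hx'
      rw [map_mul] at hx ⊢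
      refine hx.trans ?_
      have h1 : 0 < v.valuation K (a ^ 2) := zero_lt_iff.mpr ((Valuation.ne_zero_iff _).mpr ha2)
      exact (mul_lt_mul_iff_right₀ h1).mpr (key x (by rw [map_mul]; exact hx))
    obtain ⟨y, hy⟩ := HeightOneSpectrum.mem_integers_of_valuation_le_one K (a ^ 2 * x) hint
    change IsIntegral ℤ (a ^ 2 * x)
    rw [← hy]
    exact y.isIntegral_coe
  · intro φ
    calc ‖φ (a ^ 2 * x)‖ = ‖φ (a ^ 2)‖ * ‖φ x‖ := by rw [map_mul, norm_mul]
      _ ≤ ‖φ (a ^ 2)‖ * max (C φ) 0 :=
        mul_le_mul_of_nonneg_left ((hC φ x hx').trans (le_max_left _ _)) (norm_nonneg _)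
      _ ≤ B := by
        rw [hB]
        exact Finset.single_le_sum (f := fun φ : K →+* ℂ => ‖φ (a ^ 2)‖ * max (C φ) 0)
          (fun φ _ => by positivity) (Finset.mem_univ φ)

end Pool.Agent.H422.MF
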