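import Mathlib
import Pool.Agent.H422.UC.Global
import Pool.Agent.H422.MF.LocQ
import Pool.Agent.H422.MF.North

/-!
# The family `z ↦ P (s ^ N * z ^ e)` over a number field
-/

set_option autoImplicit false

open Polynomial IsDedekindDomain NumberField

namespace Pool.Agent.H422.MF

open Pool.Agent.H422.HE Pool.Agent.H422.UC

section fin

variable {K : Type} [Field K] [NumberField K]

lemma intP_finite (P : K[X]) :
    {v : HeightOneSpectrum (𝓞 K) | ¬ IntP (v.valuation K) P}.Finite := by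
  refine ((Finset.range (P.natDegree + 1)).finite_toSet.biUnion
    (t := fun i => {v : HeightOneSpectrum (𝓞 K) | ¬ v.valuation K (P.coeff i) ≤ 1})
    fun i _ => finite_int _).subset ?_
  intro v hv
  by_contra hcon
  simp only [Set.mem_iUnion, not_exists, Set.mem_ofPred_eq, not_not] at hcon
  apply hv
  intro i
  rcases lt_or_ge P.natDegree i with h | h
  · rw [coeff_eq_zero_of_natDegree_lt h, map_zero]; exact zero_le
  · exact hcon i (Finset.mem_coe.mpr (Finset.mem_range.mpr (by omega)))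

lemma GP_finite {P : K[X]} (hsep : P.Separable) (h0 : P.coeff 0 ≠ 0) :
    {v : HeightOneSpectrum (𝓞 K) | ¬ GP (v.valuation K) P}.Finite := by
  obtain ⟨U, V, hUV⟩ := hsep
  have hP0 : P ≠ 0 := by rintro rfl; simp at h0
  refine ((((intP_finite P).union (intP_finite U)).union (intP_finite V)).union
    ((finite_unit (P.coeff 0) h0).union
      (finite_unit P.leadingCoeff (leadingCoeff_ne_zero.mpr hP0)))).subset ?_
  intro v hv
  by_contra hcon
  simp only [Set.mem_union, Set.mem_ofPred_eq, not_or, not_not] at hcon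
  obtain ⟨⟨⟨h1, h2⟩, h3⟩, h4, h5⟩ := hcon
  exact hv ⟨h1, h4, h5, U, V, h2, h3, hUV⟩

end fin

section loc

variable {K : Type*} [Field K] {Γ : Type*} [LinearOrderedCommGroupWithZero Γ] {v : Valuation K Γ}
  {P : K[X]} {N e : ℕ} {s : K}

/-- all places: the power classes of the factors -/
theorem loc_all (hP : GP v P) (hm : 1 ≤ P.natDegree) (hN : 0 < N) (he : 2 ≤ e) (hs0 : s ≠ 0)
    {ζ₀ : K} (hζ : IsPrimitiveRoot ζ₀ e) (htame : ∀ ζ : K, ζ ^ e = 1 → ζ ≠ 1 → v (1 - ζ) = 1)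
    {x y : K} (px : Per (fP P N e s) x) (py : Per (fP P N e s) y) (hne : x ≠ y) (hy0 : y ≠ 0)
    {ζ ζ' : K} (h : ζ ^ e = 1) (h1 : ζ ≠ 1) (h' : ζ' ^ e = 1) (h1' : ζ' ≠ 1) :
    ∃ g, v (x - ζ * y) = g ^ (N / Nat.gcd e N) * v (x - ζ' * y) := by
  rcases lt_trichotomy (v s) 1 with hs | hs | hs
  · refine ⟨1, ?_⟩
    rw [small_all hP hN he hs hs0 htame px py hne hy0 h h1,
      small_all hP hN he hs hs0 htame px py hne hy0 h' h1', one_pow, one_mul]
  · refine ⟨1, ?_⟩
    rw [unit_all hP hm he hs hζ px py hne h h1, unit_all hP hm he hs hζ px py hne h' h1',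
      one_pow, one_mul]
  · have hn := per_NM px py hne
    obtain ⟨g, hg⟩ := big_all hP hm hN he hs hζ htame px.pre py.pre hn h
    obtain ⟨g', hg'⟩ := big_all hP hm hN he hs hζ htame px.pre py.pre hn h'
    have hpos : 0 < N / Nat.gcd e N :=
      Nat.div_pos (Nat.gcd_le_right _ hN) (Nat.gcd_pos_of_pos_right _ hN)
    have hg0 : g' ≠ 0 := by
      rintro rfl
      rw [zero_pow hpos.ne', zero_mul, Valuation.zero_iff, sub_eq_zero] at hg'
      apply hn 1
      rw [Function.iterate_one, hg', fP_root h']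
    refine ⟨g / g', ?_⟩
    rw [hg, hg', div_pow, ← mul_assoc, div_mul_cancel₀ _ (pow_ne_zero _ hg0)]

/-- the local conditions on `w = s ^ N * y ^ e` -/
theorem loc_W (hP : GP v P) {R : Finset K} (hR : ∀ r ∈ R, v r = 1)
    (hRR : ∀ r ∈ R, ∀ r' ∈ R, r ≠ r' → v (r - r') = 1)
    (hfac : P = C P.leadingCoeff * ∏ r ∈ R, (X - C r)) (hN : 0 < N) (he : 0 < e) (hs0 : s ≠ 0)
    {w τ : K} (hτ : v τ = 1) (hPw : P.eval w ≠ 0)
    (heq : w * τ ^ e = s ^ N * (P.eval w) ^ e) (hw : v w ≤ 1) :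
    ∀ r, (r = 0 ∨ r ∈ R) → ∃ g, v (w - r) = g ^ (N / Nat.gcd e N) := by
  classical
  have hval : v w = v s ^ N * v (P.eval w) ^ e := by
    have := congrArg v heq
    rwa [map_mul, map_mul, map_pow, map_pow, map_pow, hτ, one_pow, mul_one] at this
  rcases lt_or_eq_of_le hw with h1 | h1
  · have h2 : v (P.eval w) = 1 := hP.eval_small h1
    intro r hr
    rcases hr with rfl | hr
    · refine ⟨v s ^ Nat.gcd e N, ?_⟩
      rw [sub_zero, hval, h2, one_pow, mul_one, ← pow_mul,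
        Nat.mul_div_cancel' (Nat.gcd_dvd_right e N)]
    · refine ⟨1, ?_⟩
      rw [Valuation.map_sub_eq_of_lt_right, hR r hr, one_pow]
      rw [hR r hr]; exact h1
  · intro r hr
    rcases hr with rfl | hr
    · exact ⟨1, by rw [sub_zero, h1, one_pow]⟩
    have hle : v (w - r) ≤ 1 := (v.map_sub _ _).trans (by rw [h1, hR r hr, max_self])
    rcases lt_or_eq_of_le hle with h3 | h3
    swap
    · exact ⟨1, by rw [h3, one_pow]⟩
    have h4 : v (P.eval w) = v (w - r) := by
      have h5 : P.eval w = P.leadingCoeff * ∏ r ∈ R, (w - r) := by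
        conv_lhs => rw [hfac]
        rw [eval_mul, eval_C, eval_prod]
        simp
      rw [h5, map_mul, hP.lc, one_mul, map_prod, ← Finset.mul_prod_erase _ _ hr]
      have h6 : ∀ r' ∈ R.erase r, v (w - r') = 1 := by
        intro r' hr'
        rw [Finset.mem_erase] at hr'
        have h7 : w - r' = (w - r) + (r - r') := by ring
        have h8 := hRR r hr r' hr'.2 hr'.1.symm
        rw [h7, Valuation.map_add_eq_of_lt_right, h8]
        rw [h8]; exact h3
      rw [Finset.prod_congr rfl h6, Finset.prod_const_one, mul_one]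
    have h5 : v (w - r) ≠ 0 := by
      rw [← h4]; exact (Valuation.ne_zero_iff _).mpr hPw
    have hs0' : v s ≠ 0 := (Valuation.ne_zero_iff _).mpr hs0
    have h6 : v (w - r) ^ e = ((v s)⁻¹) ^ N := by
      rw [inv_pow]
      rw [h1, h4] at hval
      exact (inv_eq_of_mul_eq_one_right hval.symm).symm
    exact pow_cl_nat h5 he h6

end loc

section glob

variable {K : Type} [Field K] [NumberField K] {e N : ℕ} {ζ₀ : K} {P : K[X]}

/-- the numerical condition -/
def Hyp (M k : ℕ) : Prop := (4 ≤ M ∧ 3 ≤ k) ∨ (3 ≤ M ∧ 4 ≤ k) ∨ (2 ≤ M ∧ 5 ≤ k)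

/-- the finite set of ratios of periodic points -/
def RT (K : Type) [Field K] [NumberField K] (P : K[X]) (N e : ℕ) : Set K :=
  {t : K | ∀ v ∉ Sbad K e ∪ {v : HeightOneSpectrum (𝓞 K) | ¬ GP (v.valuation K) P},
    ∀ r ∈ rts K e, ∀ r' ∈ rts K e,
      ∃ g, v.valuation K (t - r) = g ^ (N / Nat.gcd e N) * v.valuation K (t - r')}

lemma RT_finite (hsep : P.Separable) (h0 : P.coeff 0 ≠ 0) (hζ : IsPrimitiveRoot ζ₀ e)
    (he : 2 ≤ e) (hyp : Hyp (N / Nat.gcd e N) (e - 1)) : (RT K P N e).Finite := by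
  classical
  apply pow_fin_proj K ((Sbad_finite he).union (GP_finite hsep h0))
  have : (rts K e).card = e - 1 := by
    rw [rts, Finset.card_erase_of_mem ((mem_roots' he).mpr (one_pow e)), hζ.card_nthRootsFinset]
  rw [this]
  exact hyp

lemma RT_mem (hm : 1 ≤ P.natDegree) (hN : 0 < N) (he : 2 ≤ e) (hζ : IsPrimitiveRoot ζ₀ e) {s : K}
    (hs0 : s ≠ 0) {x y : K} (px : Per (fP P N e s) x) (py : Per (fP P N e s) y) (hne : x ≠ y)
    (hy0 : y ≠ 0) : x / y ∈ RT K P N e := by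
  intro v hv r hr r' hr'
  rw [Set.mem_union, not_or, Set.mem_ofPred_eq, not_not] at hv
  rw [mem_rts he] at hr hr'
  obtain ⟨g, hg⟩ := loc_all hv.2 hm hN he hs0 hζ (tame_of he hv.1) px py hne hy0 hr.1 hr.2
    hr'.1 hr'.2
  refine ⟨g, ?_⟩
  have e1 : ∀ r : K, x / y - r = (x - r * y) / y := by intro r; field_simp
  rw [e1, e1, map_div₀, map_div₀, hg, mul_div_assoc]

/-- the bad places of a finite set -/
def Rbad (K : Type) [Field K] [NumberField K] (R : Finset K) : Set (HeightOneSpectrum (𝓞 K)) :=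
  {v | ∃ r ∈ R, v.valuation K r ≠ 1} ∪ {v | ∃ r ∈ R, ∃ r' ∈ R, r ≠ r' ∧ v.valuation K (r - r') ≠ 1}

lemma Rbad_finite {R : Finset K} (hR0 : (0 : K) ∉ R) : (Rbad K R).Finite := by
  refine Set.Finite.union ?_ ?_
  · refine (R.finite_toSet.biUnion (t := fun r => {v : HeightOneSpectrum (𝓞 K) |
      v.valuation K r ≠ 1}) fun r hr => finite_unit r ?_).subset ?_
    · rintro rfl
      exact hR0 (Finset.mem_coe.mp hr)
    · rintro v ⟨r, hr, h⟩
      simp only [Set.mem_iUnion]
      exact ⟨r, hr, h⟩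
  · refine (R.finite_toSet.biUnion (t := fun r => ⋃ r' ∈ {r' ∈ (R : Set K) | r ≠ r'},
      {v : HeightOneSpectrum (𝓞 K) | v.valuation K (r - r') ≠ 1}) fun r _ =>
      (R.finite_toSet.subset fun r' hr' => hr'.1).biUnion fun r' hr' =>
        finite_unit _ (sub_ne_zero.mpr hr'.2)).subset ?_
    rintro v ⟨r, hr, r', hr', hne, h⟩
    simp only [Set.mem_iUnion]
    exact ⟨r, hr, r', ⟨hr', hne⟩, h⟩

/-- the finite set of values of `s ^ N * y ^ e` -/
def WT (K : Type) [Field K] [NumberField K] (P : K[X]) (N e : ℕ) (R : Finset K) (τ : K) : Set K :=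
  {w : K | ∀ v ∉ ({v : HeightOneSpectrum (𝓞 K) | ¬ GP (v.valuation K) P} ∪
      {v : HeightOneSpectrum (𝓞 K) | v.valuation K τ ≠ 1}) ∪ Rbad K R,
    ∀ r, (r = 0 ∨ r ∈ R) → ∀ r', (r' = 0 ∨ r' ∈ R) →
      ∃ g, v.valuation K (w - r) = g ^ (N / Nat.gcd e N) * v.valuation K (w - r')}

lemma WT_finite (hsep : P.Separable) (h0 : P.coeff 0 ≠ 0) {R : Finset K} (hR0 : (0 : K) ∉ R)
    {τ : K} (hτ : τ ≠ 0) (hyp : Hyp (N / Nat.gcd e N) (R.card + 1)) :
    (WT K P N e R τ).Finite := by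
  classical
  refine (pow_fin_proj K (((GP_finite hsep h0).union (finite_unit τ hτ)).union
    (Rbad_finite hR0)) (m := N / Nat.gcd e N) (R := insert 0 R) (by
      rw [Finset.card_insert_of_notMem hR0]; exact hyp)).subset ?_
  intro w hw v hv r hr r' hr'
  exact hw v hv r (Finset.mem_insert.mp hr) r' (Finset.mem_insert.mp hr')

lemma WT_mem {R : Finset K}
    (hfac : P = C P.leadingCoeff * ∏ r ∈ R, (X - C r)) (hN : 0 < N) (he : 0 < e) {s : K}
    (hs0 : s ≠ 0) {w τ : K} (hw0 : w ≠ 0) (hPw : P.eval w ≠ 0)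
    (heq : w * τ ^ e = s ^ N * (P.eval w) ^ e) : w ∈ WT K P N e R τ := by
  classical
  intro v hv r hr r' hr'
  simp only [Rbad, Set.mem_union, Set.mem_ofPred_eq, not_or, not_exists, not_and, not_not] at hv
  obtain ⟨⟨hP, hτ⟩, hR, hRR⟩ := hv
  rcases lt_or_ge 1 (v.valuation K w) with h1 | h1
  · refine ⟨1, ?_⟩
    have h2 : ∀ r, (r = 0 ∨ r ∈ R) → v.valuation K (w - r) = v.valuation K w := by
      intro r hr
      apply Valuation.map_sub_eq_of_lt_left
      rcases hr with rfl | hr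
      · rw [map_zero]; exact lt_trans zero_lt_one h1
      · rw [hR r hr]; exact h1
    rw [h2 r hr, h2 r' hr', one_pow, one_mul]
  · have key := loc_W hP hR (fun r hr r' hr' hne => hRR r hr r' hr' hne) hfac hN he hs0
      hτ hPw heq h1
    obtain ⟨g, hg⟩ := key r hr
    obtain ⟨g', hg'⟩ := key r' hr'
    have hwr : w - r' ≠ 0 := by
      intro h0
      rw [sub_eq_zero] at h0
      rcases hr' with rfl | hr'
      · exact hw0 h0
      · apply hPw
        rw [hfac, eval_mul, eval_prod, Finset.prod_eq_zero hr', mul_zero]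
        simp [h0]
    have hg0 : g' ^ (N / Nat.gcd e N) ≠ 0 := by
      rw [← hg']; exact (Valuation.ne_zero_iff _).mpr hwr
    refine ⟨g / g', ?_⟩
    rw [hg, hg', div_pow, div_mul_cancel₀ _ hg0]

/-- the exceptional parameters -/
theorem exc_finite (hsep : P.Separable) (h0 : P.coeff 0 ≠ 0) (hm : 1 ≤ P.natDegree) (hN : 0 < N)
    (he : 2 ≤ e) (hζ : IsPrimitiveRoot ζ₀ e) {R : Finset K}
    (hfac : P = C P.leadingCoeff * ∏ r ∈ R, (X - C r))
    (hyp1 : Hyp (N / Nat.gcd e N) (e - 1)) (hyp2 : Hyp (N / Nat.gcd e N) (R.card + 1)) :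
    {s : K | s ≠ 0 ∧ ∃ x, Per (fP P N e s) x}.Finite := by
  classical
  have hR0 : (0 : K) ∉ R := by
    intro hcon
    apply h0
    rw [coeff_zero_eq_eval_zero, hfac, eval_mul, eval_prod, Finset.prod_eq_zero hcon, mul_zero]
    simp
  have hP0 : P ≠ 0 := by rintro rfl; simp at h0
  set T : Set K := (RT K P N e ∪ {1}) \ {0} with hT
  have hTfin : T.Finite := ((RT_finite hsep h0 hζ he hyp1).union (Set.finite_singleton 1)).sdiff
  have hfin : ((⋃ τ ∈ T, ⋃ w ∈ WT K P N e R τ, {s : K | s ^ N = w * τ ^ e / (P.eval w) ^ e}) ∪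
      ⋃ r ∈ R, {s : K | s ^ N = r / (P.eval 0) ^ e}).Finite := by
    refine Set.Finite.union (hTfin.biUnion fun τ hτ => ?_)
      (R.finite_toSet.biUnion fun r _ => pow_eq_finite hN _)
    exact (WT_finite hsep h0 hR0 (by simpa using hτ.2) hyp2).biUnion fun w _ =>
      pow_eq_finite hN _
  refine hfin.subset ?_
  rintro s ⟨hs0, x, px⟩
  have hf0 : fP P N e s 0 = P.eval 0 := by
    simp [fP, zero_pow (show e ≠ 0 by omega)]
  have hP00 : P.eval 0 ≠ 0 := by rwa [← coeff_zero_eq_eval_zero]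
  -- a periodic point `y` with `y ≠ 0`, `f y ≠ 0`
  have hy : (∃ y, Per (fP P N e s) y ∧ y ≠ 0 ∧ fP P N e s y ≠ 0) ∨
      P.eval (s ^ N * (P.eval 0) ^ e) = 0 := by
    have step : ∀ y, Per (fP P N e s) y → y ≠ 0 → (∃ y, Per (fP P N e s) y ∧ y ≠ 0 ∧
        fP P N e s y ≠ 0) ∨ P.eval (s ^ N * (P.eval 0) ^ e) = 0 := by
      intro y py hy0
      by_cases h1 : fP P N e s y = 0
      · have pz : Per (fP P N e s) (P.eval 0) := by
          have := py.step.step
          rwa [h1, hf0] at this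
        by_cases h2 : fP P N e s (P.eval 0) = 0
        · exact Or.inr h2
        · exact Or.inl ⟨_, pz, hP00, h2⟩
      · exact Or.inl ⟨y, py, hy0, h1⟩
    by_cases hx : x = 0
    · have := px.step
      rw [hx, hf0] at this
      exact step _ this hP00
    · exact step x px hx
  rcases hy with ⟨y, py, hy0, hfy0⟩ | hroot
  · left
    set τ := fP P N e s y / y with hτ
    have hτ0 : τ ≠ 0 := div_ne_zero hfy0 hy0
    have hτT : τ ∈ T := by
      refine ⟨?_, hτ0⟩
      by_cases h1 : fP P N e s y = y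
      · right; rw [Set.mem_singleton_iff, hτ, h1, div_self hy0]
      · left; exact RT_mem hm hN he hζ hs0 py.step py h1 hy0
    set w := s ^ N * y ^ e with hw
    have hPw : P.eval w = τ * y := by
      rw [hτ, div_mul_cancel₀ _ hy0]; rfl
    have hPw0 : P.eval w ≠ 0 := by rw [hPw]; exact mul_ne_zero hτ0 hy0
    have hw0 : w ≠ 0 := mul_ne_zero (pow_ne_zero _ hs0) (pow_ne_zero _ hy0)
    have heq : w * τ ^ e = s ^ N * (P.eval w) ^ e := by
      rw [hPw, hw, mul_pow]; ring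
    simp only [Set.mem_iUnion]
    refine ⟨τ, hτT, w, WT_mem hfac hN (by omega) hs0 hw0 hPw0 heq, ?_⟩
    rw [Set.mem_ofPred_eq, heq, mul_div_cancel_right₀ _ (pow_ne_zero _ hPw0)]
  · right
    simp only [Set.mem_iUnion]
    refine ⟨s ^ N * (P.eval 0) ^ e, ?_, ?_⟩
    · rw [hfac, eval_mul, eval_C, mul_eq_zero, eval_prod, Finset.prod_eq_zero_iff] at hroot
      rcases hroot with h1 | ⟨r, hr, h1⟩
      · exact absurd (leadingCoeff_eq_zero.mp h1) hP0
      · rw [eval_sub, eval_X, eval_C, sub_eq_zero] at h1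
        rw [← hfac] at h1
        rw [h1]; exact hr
    · rw [Set.mem_ofPred_eq, mul_div_cancel_right₀ _ (pow_ne_zero _ hP00)]

end glob

end Pool.Agent.H422.MF
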