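import Mathlib
import Pool.Agent.H422.MF.GlobP

/-!
# The family `z ↦ P (s ^ N * z ^ e)` over a number field: all preperiodic points
-/

set_option autoImplicit false

open Polynomial IsDedekindDomain NumberField

namespace Pool.Agent.H422.MF

open Pool.Agent.H422.HE Pool.Agent.H422.UC

lemma fP_map {K L : Type*} [Field K] [Field L] (φ : K →+* L) (P : K[X]) (N e : ℕ) (s z : K) :
    fP (P.map φ) N e (φ s) (φ z) = φ (fP P N e s z) := by
  simp only [fP]
  rw [← map_pow, ← map_pow, ← map_mul, eval_map, eval₂_at_apply]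

lemma fP_iter_map {K L : Type*} [Field K] [Field L] (φ : K →+* L) (P : K[X]) (N e : ℕ) (s z : K)
    (n : ℕ) : (fP (P.map φ) N e (φ s))^[n] (φ z) = φ ((fP P N e s)^[n] z) := by
  induction n with
  | zero => rfl
  | succ n ih => rw [Function.iterate_succ_apply', Function.iterate_succ_apply', ih, fP_map]

lemma split_prod {L : Type*} [Field L] {P : L[X]} (hsp : P.Splits) (hsep : P.Separable) :
    ∃ R : Finset L, R.card = P.natDegree ∧ P = C P.leadingCoeff * ∏ r ∈ R, (X - C r) := by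
  classical
  have hnd : P.roots.Nodup := nodup_roots hsep
  refine ⟨P.roots.toFinset, ?_, ?_⟩
  · rw [Multiset.toFinset_card_of_nodup hnd, splits_iff_card_roots.mp hsp]
  · conv_lhs => rw [hsp.eq_prod_roots]
    rw [Finset.prod, Multiset.toFinset_val, Multiset.dedup_eq_self.mpr hnd]

/-- **Finitely many parameters with preperiodic points.** -/
theorem main_fin (K : Type) [Field K] [NumberField K] {P : K[X]} (hsep : P.Separable)
    (h0 : P.coeff 0 ≠ 0) {e N : ℕ} (hN : 0 < N) (he : 2 ≤ e) (hm : 1 ≤ P.natDegree)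
    (hyp1 : Hyp (N / Nat.gcd e N) (e - 1)) (hyp2 : Hyp (N / Nat.gcd e N) (P.natDegree + 1)) :
    {s : K | s ≠ 0 ∧ ∃ x, Pre (fP P N e s) x}.Finite := by
  classical
  have : NeZero e := ⟨by omega⟩
  have : NeZero ((e : ℕ) : K) := ⟨Nat.cast_ne_zero.mpr (by omega)⟩
  set L0 := CyclotomicField e K with hL0
  have hζ0 := IsCyclotomicExtension.zeta_spec e K L0
  set φ0 : K →+* L0 := algebraMap K L0 with hφ0
  obtain ⟨L, _, _, φ1, hφ1⟩ := exists_split L0 (P.map φ0)
  set φ := φ1.comp φ0 with hφ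
  have hsp : (P.map φ).Splits := by rwa [hφ, ← Polynomial.map_map]
  have hζ := hζ0.map_of_injective (f := φ1) φ1.injective
  have hsep' : (P.map φ).Separable := hsep.map
  have h0' : (P.map φ).coeff 0 ≠ 0 := by
    rw [coeff_map]; exact (map_ne_zero φ).mpr h0
  obtain ⟨R, hR, hfac⟩ := split_prod hsp hsep'
  have hfin := exc_finite (P := P.map φ) (N := N) hsep' h0' (by rwa [natDegree_map]) hN he hζ hfac
    hyp1 (by rwa [hR, natDegree_map])
  refine (hfin.preimage (f := φ) φ.injective.injOn).subset ?_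
  rintro s ⟨hs0, x, px⟩
  refine ⟨(map_ne_zero φ).mpr hs0, ?_⟩
  obtain ⟨k, n, hn, hk⟩ := px.exists_per
  refine ⟨φ ((fP P N e s)^[k] x), n, hn, ?_⟩
  rw [fP_iter_map, hk]

/-- the map as a polynomial -/
lemma fP_poly {K : Type*} [Field K] (P : K[X]) (N e : ℕ) (s : K) :
    fP P N e s = fun z => (P.comp (C (s ^ N) * X ^ e)).eval z := by
  funext z
  simp [fP, eval_comp]

lemma fP_natDegree {K : Type*} [Field K] {P : K[X]} {N e : ℕ} {s : K} (hs0 : s ≠ 0)
    (hm : 1 ≤ P.natDegree) (he : 2 ≤ e) : 2 ≤ (P.comp (C (s ^ N) * X ^ e)).natDegree := by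
  rw [natDegree_comp, natDegree_C_mul_X_pow _ _ (pow_ne_zero _ hs0)]
  nlinarith

/-- **Uniform boundedness and emptiness.** -/
theorem main_bound (K : Type) [Field K] [NumberField K] {P : K[X]} (hsep : P.Separable)
    (h0 : P.coeff 0 ≠ 0) {e N : ℕ} (hN : 0 < N) (he : 2 ≤ e) (hm : 1 ≤ P.natDegree)
    (hyp1 : Hyp (N / Nat.gcd e N) (e - 1)) (hyp2 : Hyp (N / Nat.gcd e N) (P.natDegree + 1)) :
    ∃ (E : Finset K) (B : ℕ), ∀ (s : K) (T : Finset K), s ≠ 0 → (∀ x ∈ T, Pre (fP P N e s) x) →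
      T.card ≤ B ∧ (s ∉ E → T = ∅) := by
  classical
  set E := (main_fin K hsep h0 hN he hm hyp1 hyp2).toFinset with hE
  have hnor : ∀ s : K, s ≠ 0 → {x : K | Pre (fP P N e s) x}.Finite := by
    intro s hs0
    have := northcott_poly K (fP_natDegree (N := N) hs0 hm he)
    rwa [← fP_poly] at this
  set c : K → ℕ := fun s => if h : s ≠ 0 then (hnor s h).toFinset.card else 0 with hc
  refine ⟨E, ∑ s ∈ E, c s, fun s T hs0 hT => ?_⟩
  have h1 : s ∉ E → T = ∅ := by
    intro hsE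
    rw [Finset.eq_empty_iff_forall_notMem]
    intro x hx
    apply hsE
    rw [hE, Set.Finite.mem_toFinset]
    exact ⟨hs0, x, hT x hx⟩
  refine ⟨?_, h1⟩
  by_cases hsE : s ∈ E
  · have h2 : T ⊆ (hnor s hs0).toFinset := by
      intro x hx
      rw [Set.Finite.mem_toFinset]
      exact hT x hx
    calc T.card ≤ (hnor s hs0).toFinset.card := Finset.card_le_card h2
      _ = c s := by simp only [hc]; rw [dif_pos hs0]
      _ ≤ _ := Finset.single_le_sum (f := c) (fun _ _ => Nat.zero_le _) hsE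
  · rw [h1 hsE]
    simp

/-- the two-parameter form of the family -/
lemma conj_ab {K : Type*} [Field K] (P : K[X]) (a b : ℤ) (e : ℕ) {s : K} (hs0 : s ≠ 0) (z : K) (n : ℕ) :
    (fun z : K => s ^ a * P.eval (s ^ b * z ^ e))^[n] (s ^ a * z) =
      s ^ a * (fun z : K => P.eval (s ^ (e * a + b) * z ^ e))^[n] z := by
  induction n with
  | zero => rfl
  | succ n ih =>
    rw [Function.iterate_succ_apply', Function.iterate_succ_apply', ih]
    congr 2
    rw [mul_pow, ← mul_assoc, ← zpow_natCast, ← zpow_mul, ← zpow_add₀ hs0]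
    congr 2
    ring

/-- **The family `s ^ a * P (s ^ b * z ^ e)`.** -/
theorem main_ab (K : Type) [Field K] [NumberField K] {P : K[X]} (hsep : P.Separable)
    (h0 : P.coeff 0 ≠ 0) {e : ℕ} {a b : ℤ} {M : ℕ} (hM : M * Int.gcd e b = (e * a + b).natAbs)
    (hyp1 : Hyp M (e - 1)) (hyp2 : Hyp M (P.natDegree + 1)) :
    ∃ (E : Finset K) (B : ℕ), ∀ (s : K) (T : Finset K), s ≠ 0 →
      (∀ x ∈ T, Pre (fun z : K => s ^ a * P.eval (s ^ b * z ^ e)) x) →
      T.card ≤ B ∧ (s ∉ E → T = ∅) := by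
  classical
  have hM2 : 2 ≤ M := by unfold Hyp at hyp1; omega
  have he : 2 ≤ e := by unfold Hyp at hyp1; omega
  have hm : 1 ≤ P.natDegree := by unfold Hyp at hyp2; omega
  set N := (e * a + b).natAbs with hNdef
  have hg : Nat.gcd e N = Int.gcd e b := by
    have h1 : Int.gcd e (e * a + b) = Int.gcd e b := by
      rw [add_comm, mul_comm, Int.gcd_add_mul_right_right]
    rw [← h1, Int.gcd_def, Int.natAbs_natCast]
  have hgpos : 0 < Int.gcd e b := by
    rw [← hg]; exact Nat.gcd_pos_of_pos_left _ (by omega)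
  have hN : 0 < N := by rw [← hM]; positivity
  have hMN : N / Nat.gcd e N = M := by
    rw [hg, ← hM]; exact Nat.mul_div_cancel _ hgpos
  obtain ⟨E, B, hEB⟩ := main_bound K (e := e) (N := N) hsep h0 hN he hm (by rwa [hMN])
    (by rwa [hMN])
  refine ⟨E ∪ E.image (fun s => s⁻¹), B, fun s T hs0 hT => ?_⟩
  have hsa : s ^ a ≠ 0 := zpow_ne_zero _ hs0
  -- the normalised parameter
  obtain ⟨s', hs', hs'E, hpow⟩ : ∃ s' : K, s' ≠ 0 ∧ (s ∉ E ∪ E.image (fun s => s⁻¹) → s' ∉ E) ∧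
      s ^ (e * a + b) = s' ^ N := by
    rcases le_or_gt 0 (e * a + b) with h | h
    · refine ⟨s, hs0, fun h' h'' => h' (Finset.mem_union_left _ h''), ?_⟩
      rw [← zpow_natCast, hNdef, Int.natAbs_of_nonneg h]
    · refine ⟨s⁻¹, inv_ne_zero hs0, fun h' h'' => h' (Finset.mem_union_right _ ?_), ?_⟩
      · exact Finset.mem_image.mpr ⟨s⁻¹, h'', inv_inv s⟩
      · rw [inv_pow, ← zpow_natCast, ← zpow_neg, hNdef, Int.ofNat_natAbs_of_nonpos h.le, neg_neg]
  have hfun : (fun z : K => P.eval (s ^ (e * a + b) * z ^ e)) = fP P N e s' := by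
    funext z
    simp only [fP]
    rw [hpow]
  set T' := T.image (fun x => (s ^ a)⁻¹ * x) with hT'
  have hinj : Function.Injective (fun x : K => (s ^ a)⁻¹ * x) :=
    mul_right_injective₀ (inv_ne_zero hsa)
  have hT'pre : ∀ x ∈ T', Pre (fP P N e s') x := by
    intro x hx
    obtain ⟨y, hy, rfl⟩ := Finset.mem_image.mp hx
    obtain ⟨m, n, hmn, heq⟩ := hT y hy
    refine ⟨m, n, hmn, ?_⟩
    have h1 := conj_ab P a b e hs0 ((s ^ a)⁻¹ * y) m
    have h2 := conj_ab P a b e hs0 ((s ^ a)⁻¹ * y) n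
    rw [mul_inv_cancel_left₀ hsa] at h1 h2
    rw [h1, h2] at heq
    rw [← hfun]
    exact mul_left_cancel₀ hsa heq
  obtain ⟨h1, h2⟩ := hEB s' T' hs' hT'pre
  refine ⟨?_, fun hsE => ?_⟩
  · rwa [hT', Finset.card_image_of_injective _ hinj] at h1
  · have := h2 (hs'E hsE)
    rwa [hT', Finset.image_eq_empty] at this

end Pool.Agent.H422.MF
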